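import Pool.Graph.R_seed8.H164R3.SprMain
import Mathlib.Probability.Moments.SubGaussian

/-!
# Random sampling of a bounded vector process: expectation and concentration
-/

open MeasureTheory

namespace Pool.Agent.KS6_58.SP

open Pool.H164.Spr

variable {ι : Type*} [Fintype ι] {Ω : Type*} [MeasurableSpace Ω] {μ : Measure Ω}
  [IsProbabilityMeasure μ]

/-- One step of the comparison with the potential, in expectation. -/
lemma one_step {F : (ι → ℝ) → ℝ} (hF : Good F) {D : Ω → Fin 4 → ι → ℝ}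
    (hD : Measurable D) {M : ℝ} (hM : ∀ t k τ, |D t k τ| ≤ M)
    {φ : Ω → ι → ℝ} (hφ : Measurable φ) {M' : ℝ} (hM' : ∀ t τ, |φ t τ| ≤ M')
    (hφD : ∀ t τ τ', φ t τ - φ t τ' ≤ ∑ k, |D t k τ - D t k τ'|) (A : ι → ℝ) :
    ∫ t, F (A + (∫ s, φ s ∂μ) - φ t) ∂μ ≤ step μ D F A := by
  have hφi : Integrable φ μ := by
    refine Integrable.of_bound (C := |M'|) hφ.aestronglyMeasurable
      (Filter.Eventually.of_forall fun t => ?_)
    rw [pi_norm_le_iff_of_nonneg (abs_nonneg _)]
    intro τ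
    exact (hM' t τ).trans (le_abs_self _)
  set E := ∫ s, φ s ∂μ with hE
  have i1 : Integrable (fun t => F (A + E - φ t)) μ := by
    have := integrable_good (μ := μ) hF (c := fun t => - φ t) hφ.neg (M := M')
      (fun t τ => by simpa using hM' t τ) (A + E)
    simpa [sub_eq_add_neg] using this
  have i2 : Integrable (fun t => F (A + (2:ℝ) • φ t)) μ := by
    refine integrable_good hF (c := fun t => (2:ℝ) • φ t) (hφ.const_smul (2:ℝ)) (M := 2 * M') ?_ A
    intro t τ
    simp only [Pi.smul_apply, smul_eq_mul, abs_mul]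
    rw [show |(2:ℝ)| = 2 by norm_num]
    exact mul_le_mul_of_nonneg_left (hM' t τ) (by norm_num)
  have i3 : Integrable (fun t => F (A - (2:ℝ) • φ t)) μ := by
    have := integrable_good (μ := μ) hF (c := fun t => (-2:ℝ) • φ t) (hφ.const_smul (-2:ℝ))
      (M := 2 * M') (fun t τ => by
      simp only [Pi.smul_apply, smul_eq_mul, abs_mul]
      rw [show |(-2:ℝ)| = 2 by norm_num]
      exact mul_le_mul_of_nonneg_left (hM' t τ) (by norm_num)) A
    simpa [sub_eq_add_neg] using this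
  -- Jensen
  have hj : F (A + (2:ℝ) • E) ≤ ∫ t, F (A + (2:ℝ) • φ t) ∂μ := by
    have hG : Good (fun B => F (B + A)) := hF.comp_add A
    have hi : Integrable (fun t => (2:ℝ) • φ t) μ := hφi.smul (2:ℝ)
    have := ConvexOn.map_integral_le (μ := μ) (f := fun t => (2:ℝ) • φ t) hG.conv
      hG.lip.continuous.continuousOn isClosed_univ (Filter.Eventually.of_forall fun t => Set.mem_univ _)
      hi (by
        have : (fun B => F (B + A)) ∘ (fun t => (2:ℝ) • φ t) = fun t => F (A + (2:ℝ) • φ t) := by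
          funext t; simp [add_comm]
        rw [this]; exact i2)
    rw [integral_smul] at this
    simpa [add_comm] using this
  have hmid : ∫ t, F (A + E - φ t) ∂μ ≤
      ∫ t, ((1/2) * F (A + (2:ℝ) • E) + (1/2) * F (A - (2:ℝ) • φ t)) ∂μ := by
    refine integral_mono i1 ((integrable_const _).add (i3.const_mul _)) fun t => ?_
    have h := hF.conv.2 (Set.mem_univ (A + (2:ℝ) • E)) (Set.mem_univ (A - (2:ℝ) • φ t))
      (show (0:ℝ) ≤ 1/2 by norm_num) (show (0:ℝ) ≤ 1/2 by norm_num) (by norm_num)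
    have e : (1/2:ℝ) • (A + (2:ℝ) • E) + (1/2:ℝ) • (A - (2:ℝ) • φ t) = A + E - φ t := by
      funext τ
      simp only [Pi.add_apply, Pi.sub_apply, Pi.smul_apply, smul_eq_mul]
      ring
    rw [e] at h
    simpa using h
  rw [integral_add (integrable_const _) (i3.const_mul _), integral_const_mul] at hmid
  rw [integral_const_mul, integral_const, probReal_univ, one_smul] at hmid
  refine hmid.trans ?_
  have h5 : (1/2) * F (A + (2:ℝ) • E) + (1/2) * ∫ t, F (A - (2:ℝ) • φ t) ∂μ ≤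
      ∫ t, (1/2) * (F (A + (2:ℝ) • φ t) + F (A - (2:ℝ) • φ t)) ∂μ := by
    rw [integral_const_mul, integral_add i2 i3]
    linarith
  refine h5.trans ?_
  refine integral_mono ((i2.add i3).const_mul _) (step_integrable hF hD hM A) fun t => ?_
  have h6 := hF.contr A ((2:ℝ) • φ t) (fun k => (2:ℝ) • D t k) (by
    intro τ τ'
    have := hφD t τ τ'
    simp only [Pi.smul_apply, smul_eq_mul, ← mul_sub, abs_mul, ← Finset.mul_sum]
    rw [show |(2:ℝ)| = 2 by norm_num]
    linarith)
  have e3 : ∀ k, (4:ℝ) • (2:ℝ) • D t k = (8:ℝ) • D t k := fun k => by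
    rw [smul_smul]; norm_num
  simp only [e3] at h6
  have e4 : ∀ k, A - (8:ℝ) • D t k = A + (-8:ℝ) • D t k := fun k => by
    rw [neg_smul, sub_eq_add_neg]
  simp only [e4] at h6
  rw [Fintype.sum_prod_type]
  simp only [Fintype.sum_bool, if_true, Bool.false_eq_true, if_false, Fintype.card_prod,
    Fintype.card_fin, Fintype.card_bool]
  push_cast
  linarith

/-- Monotone and 1-Lipschitz functionals. -/
structure ML (F : (ι → ℝ) → ℝ) : Prop where
  mono : ∀ A B, A ≤ B → F A ≤ F B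
  lip : LipschitzWith 1 F

lemma ML.le_add {F : (ι → ℝ) → ℝ} (hF : ML F) (A B : ι → ℝ) : F A ≤ F B + dist A B := by
  have h := hF.lip.dist_le_mul A B
  rw [Real.dist_eq] at h
  have h2 := le_abs_self (F A - F B)
  simp only [NNReal.coe_one, one_mul] at h
  linarith

lemma ML.measurable {F : (ι → ℝ) → ℝ} (hF : ML F) {c : Ω → ι → ℝ} (hc : Measurable c)
    (B : ι → ℝ) : Measurable fun t => F (B - c t) :=
  hF.lip.continuous.measurable.comp (measurable_const.sub hc)

lemma ML.mem_Icc {F : (ι → ℝ) → ℝ} (hF : ML F) {M : ℝ} (hM0 : 0 ≤ M) {c : ι → ℝ}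
    (h0 : ∀ τ, 0 ≤ c τ) (h1 : ∀ τ, c τ ≤ M) (B : ι → ℝ) :
    F (B - c) ∈ Set.Icc (F B - M) (F B) := by
  constructor
  · have h := hF.le_add B (B - c)
    have h2 : dist B (B - c) ≤ M := by
      rw [dist_pi_le_iff hM0]
      intro τ
      rw [Real.dist_eq]
      simp only [Pi.sub_apply, sub_sub_cancel]
      rw [abs_of_nonneg (h0 τ)]
      exact h1 τ
    linarith
  · exact hF.mono _ _ fun τ => by simpa using h0 τ

lemma ML.integrable {F : (ι → ℝ) → ℝ} (hF : ML F) {M : ℝ} (hM0 : 0 ≤ M) {c : Ω → ι → ℝ}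
    (hc : Measurable c) (h0 : ∀ t τ, 0 ≤ c t τ) (h1 : ∀ t τ, c t τ ≤ M) (B : ι → ℝ) :
    Integrable (fun t => F (B - c t)) μ :=
  Integrable.of_mem_Icc (F B - M) (F B) (hF.measurable hc B).aemeasurable
    (Filter.Eventually.of_forall fun t => hF.mem_Icc hM0 (h0 t) (h1 t) B)

/-- The expected maximum after `k` steps, defined recursively. -/
noncomputable def EP (μ : Measure Ω) (φ : Ω → ι → ℝ) : ℕ → (ι → ℝ) → ℝ
  | 0 => mx
  | k + 1 => fun A => ∫ t, EP μ φ k (A + (∫ s, φ s ∂μ) - φ t) ∂μ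

variable [Nonempty ι]

lemma mx_ml : ML (mx : (ι → ℝ) → ℝ) where
  mono := fun A B h => mx_le fun τ => (h τ).trans (le_mx B τ)
  lip := good_sup.lip

lemma ep_ml {M : ℝ} (hM0 : 0 ≤ M) {φ : Ω → ι → ℝ}
    (hc : Measurable φ) (h0 : ∀ t τ, 0 ≤ φ t τ) (h1 : ∀ t τ, φ t τ ≤ M) (k : ℕ) :
    ML (EP μ φ k) := by
  induction k with
  | zero => exact mx_ml
  | succ k ih =>
    refine ⟨fun _ _ h => ?_, LipschitzWith.of_le_add fun A B => ?_⟩
    · refine integral_mono (ih.integrable hM0 hc h0 h1 _) (ih.integrable hM0 hc h0 h1 _)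
        fun t => ih.mono _ _ fun τ => ?_
      have := h τ
      simp only [Pi.add_apply, Pi.sub_apply]
      linarith
    · have : ∫ t, EP μ φ k (A + (∫ s, φ s ∂μ) - φ t) ∂μ ≤
          ∫ t, (EP μ φ k (B + (∫ s, φ s ∂μ) - φ t) + dist A B) ∂μ := by
        refine integral_mono (ih.integrable hM0 hc h0 h1 _)
          ((ih.integrable hM0 hc h0 h1 _).add (integrable_const _)) fun t => ?_
        have h := ih.le_add (A + (∫ s, φ s ∂μ) - φ t) (B + (∫ s, φ s ∂μ) - φ t)
        have e : dist (A + (∫ s, φ s ∂μ) - φ t) (B + (∫ s, φ s ∂μ) - φ t) = dist A B := by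
          rw [dist_sub_right, dist_add_right]
        rw [e] at h
        exact h
      rw [integral_add (ih.integrable hM0 hc h0 h1 _) (integrable_const _), integral_const,
        probReal_univ, one_smul] at this
      exact this

lemma ep_le_pot {D : Ω → Fin 4 → ι → ℝ}
    (hD : Measurable D) {R : ℝ} (hR : ∀ t k τ, |D t k τ| ≤ R)
    {φ : Ω → ι → ℝ} (hφ : Measurable φ) {M : ℝ} (hM0 : 0 ≤ M)
    (h0 : ∀ t τ, 0 ≤ φ t τ) (h1 : ∀ t τ, φ t τ ≤ M)
    (hφD : ∀ t τ τ', φ t τ - φ t τ' ≤ ∑ k, |D t k τ - D t k τ'|) (k : ℕ) (A : ι → ℝ) :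
    EP μ φ k A ≤ pot μ D k A := by
  have hM' : ∀ t τ, |φ t τ| ≤ M := fun t τ => by rw [abs_of_nonneg (h0 t τ)]; exact h1 t τ
  induction k generalizing A with
  | zero => exact le_rfl
  | succ k ih =>
    have hG := good_pot (μ := μ) hD hR k
    refine le_trans ?_ (one_step hG hD hR hφ hM' hφD A)
    have i1 : Integrable (fun t => pot μ D k (A + (∫ s, φ s ∂μ) - φ t)) μ := by
      have := integrable_good (μ := μ) hG (c := fun t => - φ t) hφ.neg (M := M)
        (fun t τ => by simpa using hM' t τ) (A + ∫ s, φ s ∂μ)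
      simpa [sub_eq_add_neg] using this
    exact integral_mono ((ep_ml hM0 hφ h0 h1 k).integrable hM0 hφ h0 h1 _) i1 fun t => ih _

lemma hoeffding {X : Ω → ℝ} {a b : ℝ} (hX : Measurable X) (hab : ∀ t, X t ∈ Set.Icc a b)
    (l : ℝ) : ∫⁻ t, ENNReal.ofReal (Real.exp (l * X t)) ∂μ ≤
      ENNReal.ofReal (Real.exp (l * (∫ t, X t ∂μ) + l ^ 2 * (b - a) ^ 2 / 8)) := by
  have h := ProbabilityTheory.hasSubgaussianMGF_of_mem_Icc (μ := μ) (X := X) (a := a) (b := b)
    hX.aemeasurable (Filter.Eventually.of_forall hab)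
  have hi := h.integrable_exp_mul l
  have hle := h.mgf_le l
  rw [ProbabilityTheory.mgf] at hle
  have e1 : ∀ t, Real.exp (l * X t) =
      Real.exp (l * ∫ s, X s ∂μ) * Real.exp (l * (X t - ∫ s, X s ∂μ)) := by
    intro t
    rw [← Real.exp_add]
    congr 1
    ring
  have hi2 : Integrable (fun t => Real.exp (l * X t)) μ := by
    simp only [e1]
    exact hi.const_mul _
  rw [← ofReal_integral_eq_lintegral_ofReal hi2
    (Filter.Eventually.of_forall fun t => (Real.exp_pos _).le)]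
  refine ENNReal.ofReal_le_ofReal ?_
  simp only [e1]
  rw [integral_const_mul, Real.exp_add]
  refine mul_le_mul_of_nonneg_left (hle.trans (le_of_eq ?_)) (Real.exp_pos _).le
  congr 1
  push_cast
  rw [Real.norm_eq_abs, div_pow, sq_abs]
  ring

lemma exp_moment {M : ℝ} (hM0 : 0 ≤ M) {φ : Ω → ι → ℝ}
    (hφ : Measurable φ) (h0 : ∀ t τ, 0 ≤ φ t τ) (h1 : ∀ t τ, φ t τ ≤ M) (l : ℝ) (k : ℕ)
    (A : ι → ℝ) :
    ∫⁻ t, ENNReal.ofReal (Real.exp (l * mx (A + (k:ℝ) • (∫ s, φ s ∂μ) - ∑ j, φ (t j))))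
      ∂(Measure.pi fun _ : Fin k => μ) ≤
      ENNReal.ofReal (Real.exp (l * EP μ φ k A + k * (l ^ 2 * M ^ 2 / 8))) := by
  induction k generalizing A with
  | zero =>
    simp [EP]
  | succ k ih =>
    set E := ∫ s, φ s ∂μ with hE
    have hmeas : ∀ (j : ℕ) (B : ι → ℝ), Measurable fun t : Fin j → Ω =>
        ENNReal.ofReal (Real.exp (l * mx (B - ∑ i, φ (t i)))) := by
      intro j B
      refine ENNReal.measurable_ofReal.comp (Real.measurable_exp.comp (Measurable.const_mul ?_ l))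
      refine mx_ml.lip.continuous.measurable.comp (measurable_const.sub ?_)
      exact Finset.measurable_fun_sum _ fun i _ => hφ.comp (measurable_pi_apply i)
    have hmp := (measurePreserving_piFinSuccAbove (fun _ : Fin (k + 1) => μ) 0).symm
    have e1 := hmp.lintegral_comp (hmeas (k + 1) (A + ((k + 1 : ℕ) : ℝ) • E))
    rw [← e1]
    have e2 : ∀ y : Ω × (Fin k → Ω),
        ENNReal.ofReal (Real.exp (l * mx (A + ((k + 1 : ℕ) : ℝ) • E -
          ∑ i, φ ((MeasurableEquiv.piFinSuccAbove (fun _ : Fin (k + 1) => Ω) 0).symm y i)))) =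
        ENNReal.ofReal (Real.exp (l * mx ((A + E - φ y.1) + (k:ℝ) • E - ∑ i, φ (y.2 i)))) := by
      intro y
      have e3 : A + ((k + 1 : ℕ) : ℝ) • E -
          ∑ i, φ ((MeasurableEquiv.piFinSuccAbove (fun _ : Fin (k + 1) => Ω) 0).symm y i) =
          (A + E - φ y.1) + (k:ℝ) • E - ∑ i, φ (y.2 i) := by
        rw [Fin.sum_univ_succ]
        have e4 : (MeasurableEquiv.piFinSuccAbove (fun _ : Fin (k + 1) => Ω) 0).symm y 0 = y.1 := by
          simp [MeasurableEquiv.piFinSuccAbove]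
        have e5 : ∀ i : Fin k,
            (MeasurableEquiv.piFinSuccAbove (fun _ : Fin (k + 1) => Ω) 0).symm y i.succ = y.2 i := by
          intro i
          simp [MeasurableEquiv.piFinSuccAbove]
        rw [e4]
        simp only [e5]
        push_cast
        rw [add_smul, one_smul]
        abel
      rw [e3]
    simp only [e2]
    rw [lintegral_prod _ (by
      refine Measurable.aemeasurable ?_
      refine ENNReal.measurable_ofReal.comp (Real.measurable_exp.comp (Measurable.const_mul ?_ l))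
      refine mx_ml.lip.continuous.measurable.comp (Measurable.sub (Measurable.add
        (measurable_const.sub (hφ.comp measurable_fst)) measurable_const) ?_)
      exact Finset.measurable_fun_sum _ fun i _ =>
        hφ.comp ((measurable_pi_apply i).comp measurable_snd))]
    have hml := ep_ml (μ := μ) hM0 hφ h0 h1 k
    calc ∫⁻ s, ∫⁻ t, ENNReal.ofReal (Real.exp (l * mx ((A + E - φ s) + (k:ℝ) • E -
            ∑ i, φ (t i)))) ∂(Measure.pi fun _ : Fin k => μ) ∂μ
        ≤ ∫⁻ s, ENNReal.ofReal (Real.exp (l * EP μ φ k (A + E - φ s) +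
            k * (l ^ 2 * M ^ 2 / 8))) ∂μ := lintegral_mono fun s => ih _
      _ = ∫⁻ s, ENNReal.ofReal (Real.exp (k * (l ^ 2 * M ^ 2 / 8))) *
            ENNReal.ofReal (Real.exp (l * EP μ φ k (A + E - φ s))) ∂μ := by
          refine lintegral_congr fun s => ?_
          rw [← ENNReal.ofReal_mul (Real.exp_pos _).le, ← Real.exp_add, add_comm]
      _ = ENNReal.ofReal (Real.exp (k * (l ^ 2 * M ^ 2 / 8))) *
            ∫⁻ s, ENNReal.ofReal (Real.exp (l * EP μ φ k (A + E - φ s))) ∂μ := by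
          have hme : Measurable fun s =>
              ENNReal.ofReal (Real.exp (l * EP μ φ k (A + E - φ s))) :=
            ENNReal.measurable_ofReal.comp
              (Real.measurable_exp.comp ((hml.measurable hφ (A + E)).const_mul l))
          exact lintegral_const_mul _ hme
      _ ≤ ENNReal.ofReal (Real.exp (k * (l ^ 2 * M ^ 2 / 8))) *
            ENNReal.ofReal (Real.exp (l * EP μ φ (k + 1) A + l ^ 2 * M ^ 2 / 8)) := by
          gcongr
          have h := hoeffding (μ := μ) (hml.measurable hφ (A + E))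
            (fun t => hml.mem_Icc hM0 (h0 t) (h1 t) (A + E)) l
          have e6 : EP μ φ k (A + E) - (EP μ φ k (A + E) - M) = M := by ring
          rw [e6] at h
          exact h
      _ = ENNReal.ofReal (Real.exp (l * EP μ φ (k + 1) A +
            ((k + 1 : ℕ) : ℝ) * (l ^ 2 * M ^ 2 / 8))) := by
          rw [← ENNReal.ofReal_mul (Real.exp_pos _).le, ← Real.exp_add]
          congr 2
          push_cast
          ring

/-- Concentration: the bounded-differences inequality for the maximum. -/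
lemma tail {M : ℝ} (hM0 : 0 < M) {φ : Ω → ι → ℝ}
    (hφ : Measurable φ) (h0 : ∀ t τ, 0 ≤ φ t τ) (h1 : ∀ t τ, φ t τ ≤ M) {m : ℕ} (hm : 0 < m)
    {a : ℝ} (ha : 0 ≤ a) :
    (Measure.pi fun _ : Fin m => μ) {t | EP μ φ m 0 + m * a ≤
      mx ((m:ℝ) • (∫ s, φ s ∂μ) - ∑ j, φ (t j))} ≤
      ENNReal.ofReal (Real.exp (-(2 * m * a ^ 2 / M ^ 2))) := by
  have hmR : (0:ℝ) < m := by exact_mod_cast hm
  set l : ℝ := 4 * a / M ^ 2 with hl
  have hl0 : 0 ≤ l := by positivity
  have h := exp_moment (μ := μ) hM0.le hφ h0 h1 l m 0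
  simp only [zero_add] at h
  have hmeas : Measurable fun t : Fin m → Ω =>
      ENNReal.ofReal (Real.exp (l * mx ((m:ℝ) • (∫ s, φ s ∂μ) - ∑ i, φ (t i)))) := by
    refine ENNReal.measurable_ofReal.comp (Real.measurable_exp.comp (Measurable.const_mul ?_ l))
    refine mx_ml.lip.continuous.measurable.comp (measurable_const.sub ?_)
    exact Finset.measurable_fun_sum _ fun i _ => hφ.comp (measurable_pi_apply i)
  have hmk := mul_meas_ge_le_lintegral (μ := Measure.pi fun _ : Fin m => μ) hmeas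
    (ENNReal.ofReal (Real.exp (l * (EP μ φ m 0 + m * a))))
  have hsub : {t : Fin m → Ω | EP μ φ m 0 + m * a ≤
      mx ((m:ℝ) • (∫ s, φ s ∂μ) - ∑ j, φ (t j))} ⊆
      {t | ENNReal.ofReal (Real.exp (l * (EP μ φ m 0 + m * a))) ≤
        ENNReal.ofReal (Real.exp (l * mx ((m:ℝ) • (∫ s, φ s ∂μ) - ∑ i, φ (t i))))} := by
    intro t ht
    exact ENNReal.ofReal_le_ofReal (Real.exp_le_exp.2 (mul_le_mul_of_nonneg_left ht hl0))
  have h2 := (mul_le_mul_right (measure_mono (μ := Measure.pi fun _ : Fin m => μ) hsub)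
    (ENNReal.ofReal (Real.exp (l * (EP μ φ m 0 + m * a))))).trans (hmk.trans h)
  have hexp : Real.exp (l * EP μ φ m 0 + m * (l ^ 2 * M ^ 2 / 8)) =
      Real.exp (l * (EP μ φ m 0 + m * a)) * Real.exp (-(2 * m * a ^ 2 / M ^ 2)) := by
    rw [← Real.exp_add]
    congr 1
    rw [hl]
    field_simp
    ring
  rw [hexp, ENNReal.ofReal_mul (Real.exp_pos _).le] at h2
  exact (ENNReal.mul_le_mul_iff_right (by simpa using Real.exp_pos _) ENNReal.ofReal_ne_top).1 h2

end Pool.Agent.KS6_58.SP
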