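import Pool.Agent.KS6_58.SP.A

/-!
# Random sampling of frames with a lower bound for the moduli in mean
-/

open MeasureTheory

namespace Pool.Agent.KS6_58.SP

open Pool.H164.Spr

variable {𝕜 : Type*} [RCLike 𝕜] {H : Type*} [NormedAddCommGroup H] [InnerProductSpace 𝕜 H]

variable {Ω : Type*} [MeasurableSpace Ω] {μ : Measure Ω} [IsProbabilityMeasure μ]

lemma int_norm {x : Ω → H} (hx : ∀ v, Measurable fun t => (inner 𝕜 (x t) v))
    (hI : ∀ v, Integrable (fun t => ‖(inner 𝕜 (x t) v)‖ ^ 2) μ) (v : H) :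
    Integrable (fun t => ‖(inner 𝕜 (x t) v)‖) μ := by
  refine Integrable.mono' ((integrable_const (1:ℝ)).add (hI v)) (hx v).norm.aestronglyMeasurable
    (Filter.Eventually.of_forall fun t => ?_)
  rw [norm_norm]
  simp only [Pi.add_apply]
  nlinarith [sq_nonneg (‖(inner 𝕜 (x t) v)‖ - 1), sq_nonneg ‖(inner 𝕜 (x t) v)‖]

lemma int_abs {x : Ω → H} (hx : ∀ v, Measurable fun t => (inner 𝕜 (x t) v))
    (hI : ∀ v, Integrable (fun t => ‖(inner 𝕜 (x t) v)‖ ^ 2) μ) (v w : H) :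
    Integrable (fun t => |‖(inner 𝕜 (x t) v)‖ - ‖(inner 𝕜 (x t) w)‖|) μ :=
  ((int_norm hx hI v).sub (int_norm hx hI w)).abs

lemma sq_diff_le {a b : ℝ} (ha : 0 ≤ a) (hb : 0 ≤ b) : (a - b) ^ 2 ≤ a ^ 2 + b ^ 2 := by
  nlinarith [mul_nonneg ha hb]

omit [IsProbabilityMeasure μ] in
lemma int_sq {x : Ω → H} (hx : ∀ v, Measurable fun t => (inner 𝕜 (x t) v))
    (hI : ∀ v, Integrable (fun t => ‖(inner 𝕜 (x t) v)‖ ^ 2) μ) (v w : H) :
    Integrable (fun t => (‖(inner 𝕜 (x t) v)‖ - ‖(inner 𝕜 (x t) w)‖) ^ 2) μ := by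
  refine Integrable.mono' ((hI v).add (hI w))
    (((hx v).norm.sub (hx w).norm).pow_const 2).aestronglyMeasurable
    (Filter.Eventually.of_forall fun t => ?_)
  rw [Real.norm_eq_abs, abs_of_nonneg (sq_nonneg _)]
  exact sq_diff_le (norm_nonneg _) (norm_nonneg _)

section Finite

variable [FiniteDimensional 𝕜 H]

omit [MeasurableSpace Ω] in
lemma norm_sq_eq (x : Ω → H) (t : Ω) :
    ‖x t‖ ^ 2 = ∑ i, ‖(inner 𝕜 (x t) (stdOrthonormalBasis 𝕜 H i))‖ ^ 2 :=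
  ((stdOrthonormalBasis 𝕜 H).sum_sq_norm_inner_left (x t)).symm

lemma meas_norm {x : Ω → H} (hx : ∀ v, Measurable fun t => (inner 𝕜 (x t) v)) :
    Measurable fun t => ‖x t‖ := by
  have h1 : Measurable fun t => ‖x t‖ ^ 2 := by
    simp only [norm_sq_eq (𝕜 := 𝕜) x]
    exact Finset.measurable_fun_sum _ fun i _ => (hx _).norm.pow_const 2
  have h2 : (fun t => ‖x t‖) = fun t => √(‖x t‖ ^ 2) := by
    funext t
    rw [Real.sqrt_sq (norm_nonneg _)]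
  rw [h2]
  exact h1.sqrt

omit [IsProbabilityMeasure μ] in
lemma int_norm_sq {x : Ω → H}
    (hI : ∀ v, Integrable (fun t => ‖(inner 𝕜 (x t) v)‖ ^ 2) μ) :
    Integrable (fun t => ‖x t‖ ^ 2) μ := by
  simp only [norm_sq_eq (𝕜 := 𝕜) x]
  exact integrable_finsetSum _ fun i _ => hI _

omit [IsProbabilityMeasure μ] in
lemma integral_norm_sq {x : Ω → H}
    (hI : ∀ v, Integrable (fun t => ‖(inner 𝕜 (x t) v)‖ ^ 2) μ)
    (hP : ∀ v, ∫ t, ‖(inner 𝕜 (x t) v)‖ ^ 2 ∂μ = ‖v‖ ^ 2) :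
    ∫ t, ‖x t‖ ^ 2 ∂μ = Module.finrank 𝕜 H := by
  simp only [norm_sq_eq (𝕜 := 𝕜) x]
  rw [integral_finsetSum _ fun i _ => hI _]
  simp only [hP, OrthonormalBasis.norm_eq_one, one_pow]
  simp

end Finite

/-- The truncated family. -/
noncomputable def tr (R : ℝ) (x : Ω → H) : Ω → H := fun t =>
  open Classical in if ‖x t‖ ≤ R then x t else 0

omit [MeasurableSpace Ω] in
lemma tr_of_le {R : ℝ} {x : Ω → H} {t : Ω} (h : ‖x t‖ ≤ R) : tr R x t = x t := by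
  rw [tr, if_pos h]

omit [MeasurableSpace Ω] in
lemma tr_of_lt {R : ℝ} {x : Ω → H} {t : Ω} (h : R < ‖x t‖) : tr R x t = 0 := by
  rw [tr, if_neg (not_le.2 h)]

omit [MeasurableSpace Ω] in
lemma tr_norm {R : ℝ} (hR : 0 ≤ R) (x : Ω → H) (t : Ω) : ‖tr R x t‖ ≤ R := by
  rcases le_or_gt ‖x t‖ R with h | h
  · rw [tr_of_le h]; exact h
  · rw [tr_of_lt h, norm_zero]; exact hR

lemma tr_meas [FiniteDimensional 𝕜 H] {R : ℝ} {x : Ω → H}
    (hx : ∀ v, Measurable fun t => (inner 𝕜 (x t) v)) (v : H) :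
    Measurable fun t => (inner 𝕜 (tr R x t) v) := by
  classical
  have h : (fun t => (inner 𝕜 (tr R x t) v)) =
      fun t => if ‖x t‖ ≤ R then inner 𝕜 (x t) v else 0 := by
    funext t
    rcases le_or_gt ‖x t‖ R with h | h
    · rw [tr_of_le h, if_pos h]
    · rw [tr_of_lt h, if_neg (not_le.2 h), inner_zero_left]
  rw [h]
  exact Measurable.ite (measurableSet_le (meas_norm (𝕜 := 𝕜) hx) measurable_const) (hx v)
    measurable_const

/-- The modulus difference. -/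
noncomputable def md (𝕜 : Type*) [RCLike 𝕜] {H : Type*} [NormedAddCommGroup H]
    [InnerProductSpace 𝕜 H] (z p q : H) : ℝ := |‖(inner 𝕜 z p)‖ - ‖(inner 𝕜 z q)‖|

lemma md_nonneg (z p q : H) : 0 ≤ md 𝕜 z p q := abs_nonneg _

omit [MeasurableSpace Ω] in
lemma md_tr_le (R : ℝ) (x : Ω → H) (t : Ω) (p q : H) : md 𝕜 (tr R x t) p q ≤ md 𝕜 (x t) p q := by
  rcases le_or_gt ‖x t‖ R with h | h
  · rw [tr_of_le h]
  · rw [tr_of_lt h]
    simp [md]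

lemma min_sub_min {s s' M d : ℝ} (hd : 0 ≤ d) (h : s ≤ s' + d) : min s M ≤ min s' M + d := by
  rw [← min_add_add_right]
  exact min_le_min h (by linarith)

lemma md_lip (z : H) {ι : Type*} (a b : ι → H) (τ τ' : ι) :
    md 𝕜 z (a τ) (b τ) ≤ md 𝕜 z (a τ') (b τ') +
      (|RCLike.re (inner 𝕜 z (a τ)) - RCLike.re (inner 𝕜 z (a τ'))| +
       |RCLike.im (inner 𝕜 z (a τ)) - RCLike.im (inner 𝕜 z (a τ'))| +
       |RCLike.re (inner 𝕜 z (b τ)) - RCLike.re (inner 𝕜 z (b τ'))| +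
       |RCLike.im (inner 𝕜 z (b τ)) - RCLike.im (inner 𝕜 z (b τ'))|) := by
  have h1 := norm_le_re_im ((inner 𝕜 z (a τ)) - (inner 𝕜 z (a τ')))
  have h2 := norm_le_re_im ((inner 𝕜 z (b τ)) - (inner 𝕜 z (b τ')))
  rw [map_sub, map_sub] at h1 h2
  have h3 := abs_norm_sub_norm_le (inner 𝕜 z (a τ)) (inner 𝕜 z (a τ'))
  have h4 := abs_norm_sub_norm_le (inner 𝕜 z (b τ)) (inner 𝕜 z (b τ'))
  have h5 : |‖(inner 𝕜 z (a τ))‖ - ‖(inner 𝕜 z (b τ))‖| -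
      |‖(inner 𝕜 z (a τ'))‖ - ‖(inner 𝕜 z (b τ'))‖| ≤
      |‖(inner 𝕜 z (a τ))‖ - ‖(inner 𝕜 z (a τ'))‖| + |‖(inner 𝕜 z (b τ))‖ - ‖(inner 𝕜 z (b τ'))‖| := by
    refine (abs_sub_abs_le_abs_sub _ _).trans ?_
    have e : ‖(inner 𝕜 z (a τ))‖ - ‖(inner 𝕜 z (b τ))‖ -
        (‖(inner 𝕜 z (a τ'))‖ - ‖(inner 𝕜 z (b τ'))‖) =
      (‖(inner 𝕜 z (a τ))‖ - ‖(inner 𝕜 z (a τ'))‖) -
        (‖(inner 𝕜 z (b τ))‖ - ‖(inner 𝕜 z (b τ'))‖) := by ring
    rw [e]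
    exact abs_sub _ _
  unfold md
  linarith

/-- One-sided uniform law for the truncated moduli over a finite family of pairs. -/
lemma sample_tail [FiniteDimensional 𝕜 H] {ι : Type*} [Fintype ι] [Nonempty ι] {x : Ω → H}
    (hx : ∀ v, Measurable fun t => (inner 𝕜 (x t) v)) {R : ℝ} (hR : 0 ≤ R) {a b : ι → H}
    (ha : ∀ τ, ‖a τ‖ ≤ 1) (hb : ∀ τ, ‖b τ‖ ≤ 1) {M : ℝ} (hM : 0 < M) {m : ℕ} (hm : 0 < m)
    {s : ℝ} (hs : 0 ≤ s) :
    (Measure.pi fun _ : Fin m => μ) {t | ∃ τ, 16 * R * √m + m * s ≤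
      m * (∫ u, min (md 𝕜 (tr R x u) (a τ) (b τ)) M ∂μ) -
        ∑ j, min (md 𝕜 (tr R x (t j)) (a τ) (b τ)) M} ≤
      ENNReal.ofReal (Real.exp (-(2 * m * s ^ 2 / M ^ 2))) := by
  set φ : Ω → ι → ℝ := fun u τ => min (md 𝕜 (tr R x u) (a τ) (b τ)) M with hφd
  have hφ : Measurable φ := by
    rw [measurable_pi_iff]
    intro τ
    exact (((tr_meas hx (a τ)).norm.sub (tr_meas hx (b τ)).norm).abs).min measurable_const
  have h0 : ∀ t τ, 0 ≤ φ t τ := fun t τ => le_min (md_nonneg _ _ _) hM.le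
  have h1 : ∀ t τ, φ t τ ≤ M := fun t τ => min_le_right _ _
  have hφi : Integrable φ μ := by
    refine Integrable.of_bound (C := M) hφ.aestronglyMeasurable
      (Filter.Eventually.of_forall fun t => ?_)
    rw [pi_norm_le_iff_of_nonneg hM.le]
    intro τ
    rw [Real.norm_eq_abs, abs_of_nonneg (h0 t τ)]
    exact h1 t τ
  have hφD : ∀ t τ τ', φ t τ - φ t τ' ≤
      ∑ k, |dd 𝕜 (tr R x) a b t k τ - dd 𝕜 (tr R x) a b t k τ'| := by
    intro t τ τ'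
    rw [Fin.sum_univ_four]
    simp only [dd, Matrix.cons_val]
    have h2 := min_sub_min (M := M) (by positivity) (md_lip (𝕜 := 𝕜) (tr R x t) a b τ τ')
    simp only [hφd]
    linarith
  have hep := ep_le_pot (μ := μ) (dd_measurable (𝕜 := 𝕜) (tr_meas (R := R) hx) a b)
    (dd_bdd (𝕜 := 𝕜) (tr_norm hR x) ha hb) hφ hM.le h0 h1 hφD m (lin 𝕜 a b 0 0)
  have hpb := pot_bound (μ := μ) (𝕜 := 𝕜) (tr_meas (R := R) hx) (tr_norm hR x) ha hb m 0 0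
  have e0 : lin 𝕜 a b (0:H) 0 = 0 := by funext τ; simp [lin]
  have e1 : √(‖(0:H)‖ ^ 2 + 64 * R ^ 2 * m) = 8 * R * √m := by
    rw [norm_zero]
    have : (0:ℝ) ^ 2 + 64 * R ^ 2 * m = (8 * R) ^ 2 * m := by ring
    rw [this, Real.sqrt_mul (by positivity), Real.sqrt_sq (by positivity)]
  rw [e1] at hpb
  rw [e0] at hep hpb
  refine le_trans (measure_mono ?_) (tail (μ := μ) hM hφ h0 h1 hm hs)
  rintro t ⟨τ, hτ⟩
  have h3 := le_mx ((m:ℝ) • (∫ s, φ s ∂μ) - ∑ j, φ (t j)) τ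
  have e : (∫ s, φ s ∂μ) τ = ∫ s, φ s τ ∂μ :=
    MeasureTheory.eval_integral (fun i => (integrable_pi_iff.1 hφi i)) τ
  simp only [Pi.sub_apply, Pi.smul_apply, smul_eq_mul, e, Finset.sum_apply] at h3
  have h4 : 16 * R * √m + m * s ≤ (m:ℝ) * (∫ s, φ s τ ∂μ) - ∑ j, φ (t j) τ := hτ
  show EP μ φ m 0 + m * s ≤ _
  linarith

lemma md_diff {z p q p' q' : H} {R ε : ℝ} (hz : ‖z‖ ≤ R) (hp : ‖p - p'‖ ≤ ε)
    (hq : ‖q - q'‖ ≤ ε) : md 𝕜 z p q ≤ md 𝕜 z p' q' + 2 * (ε * R) :=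
  phi_diff (𝕜 := 𝕜) hz hp hq

lemma md_sq_le (z p q : H) :
    md 𝕜 z p q ^ 2 ≤ ‖(inner 𝕜 z p)‖ ^ 2 + ‖(inner 𝕜 z q)‖ ^ 2 := by
  rw [md, sq_abs]
  exact sq_diff_le (norm_nonneg _) (norm_nonneg _)

omit [MeasurableSpace Ω] in
/-- Pointwise lower bound of the truncated modulus. -/
lemma trunc_lower {n : ℕ} (hn : 0 < n) {C : ℝ} (hC : 0 < C) (x : Ω → H) (t : Ω) (p q : H) :
    md 𝕜 (x t) p q - (‖(inner 𝕜 (x t) p)‖ ^ 2 + ‖(inner 𝕜 (x t) q)‖ ^ 2) / (2 * C) -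
      ‖x t‖ ^ 2 / (8 * C * n) ≤ min (md 𝕜 (tr (2 * C * √n) x t) p q) (C / 2) := by
  have hnR : (0:ℝ) < n := by exact_mod_cast hn
  have h1 := md_sq_le (𝕜 := 𝕜) (x t) p q
  have h0 := md_nonneg (𝕜 := 𝕜) (x t) p q
  set ψ := md 𝕜 (x t) p q with hψ
  have h2 : ψ ^ 2 / (2 * C) ≤ (‖(inner 𝕜 (x t) p)‖ ^ 2 + ‖(inner 𝕜 (x t) q)‖ ^ 2) / (2 * C) := by
    gcongr
  have h3 : ψ - ψ ^ 2 / (2 * C) ≤ C / 2 := by
    have h : ψ - ψ ^ 2 / (2 * C) = C / 2 - (ψ - C) ^ 2 / (2 * C) := by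
      field_simp
      ring
    rw [h]
    have : 0 ≤ (ψ - C) ^ 2 / (2 * C) := by positivity
    linarith
  have h4 : 0 ≤ ψ ^ 2 / (2 * C) := by positivity
  rcases le_or_gt ‖x t‖ (2 * C * √n) with h | h
  · rw [tr_of_le h, ← hψ]
    have h5 : 0 ≤ ‖x t‖ ^ 2 / (8 * C * n) := by positivity
    refine le_min ?_ ?_ <;> linarith
  · rw [tr_of_lt h]
    have h6 : md 𝕜 (0:H) p q = 0 := by simp [md]
    rw [h6, min_eq_left (by positivity)]
    have h7 : C / 2 ≤ ‖x t‖ ^ 2 / (8 * C * n) := by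
      rw [le_div_iff₀ (by positivity)]
      have h8 : (2 * C * √n) ^ 2 ≤ ‖x t‖ ^ 2 := pow_le_pow_left₀ (by positivity) h.le 2
      rw [mul_pow, Real.sq_sqrt hnR.le] at h8
      nlinarith
    linarith

lemma mean_lower [FiniteDimensional 𝕜 H] {n : ℕ} (hn : 0 < n) (hfin : Module.finrank 𝕜 H = n)
    {x : Ω → H} (hx : ∀ v, Measurable fun t => (inner 𝕜 (x t) v))
    (hI : ∀ v, Integrable (fun t => ‖(inner 𝕜 (x t) v)‖ ^ 2) μ)
    (hP : ∀ v, ∫ t, ‖(inner 𝕜 (x t) v)‖ ^ 2 ∂μ = ‖v‖ ^ 2) {C : ℝ} (hC : 0 < C)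
    (hb : ∀ v w : H, ∃ c : 𝕜, ‖c‖ = 1 ∧
      ‖v - c • w‖ ≤ C * ∫ t, |‖(inner 𝕜 (x t) v)‖ - ‖(inner 𝕜 (x t) w)‖| ∂μ)
    {p q : H} (hpq : (inner 𝕜 p q) = 0) (hN : ‖p‖ ^ 2 + ‖q‖ ^ 2 = 1) :
    3 / (8 * C) ≤ ∫ t, min (md 𝕜 (tr (2 * C * √n) x t) p q) (C / 2) ∂μ := by
  have hnR : (0:ℝ) < n := by exact_mod_cast hn
  obtain ⟨c, hc, hle⟩ := hb p q
  have hnorm : ‖p - c • q‖ = 1 := by
    have h : ‖p - c • q‖ ^ 2 = 1 := by
      rw [@norm_sub_sq 𝕜, inner_smul_right, hpq, mul_zero, map_zero, norm_smul, hc, one_mul]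
      linarith
    nlinarith [norm_nonneg (p - c • q)]
  rw [hnorm] at hle
  have i1 : Integrable (fun t => md 𝕜 (x t) p q) μ := int_abs hx hI p q
  have i2 : Integrable (fun t => (‖(inner 𝕜 (x t) p)‖ ^ 2 + ‖(inner 𝕜 (x t) q)‖ ^ 2) / (2 * C)) μ :=
    ((hI p).add (hI q)).div_const _
  have i3 : Integrable (fun t => ‖x t‖ ^ 2 / (8 * C * n)) μ :=
    (int_norm_sq (𝕜 := 𝕜) hI).div_const _
  have i4 : Integrable (fun t => min (md 𝕜 (tr (2 * C * √n) x t) p q) (C / 2)) μ := by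
    refine Integrable.of_bound (C := C / 2) ?_ (Filter.Eventually.of_forall fun t => ?_)
    · exact ((((tr_meas hx p).norm.sub (tr_meas hx q).norm).abs).min
        measurable_const).aestronglyMeasurable
    · rw [Real.norm_eq_abs, abs_of_nonneg (le_min (md_nonneg _ _ _) (by positivity))]
      exact min_le_right _ _
  have h := integral_mono ((i1.sub i2).sub i3) i4 fun t => trunc_lower (𝕜 := 𝕜) hn hC x t p q
  refine le_trans ?_ h
  have e : ∫ t, (((fun t => md 𝕜 (x t) p q) -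
      (fun t => (‖(inner 𝕜 (x t) p)‖ ^ 2 + ‖(inner 𝕜 (x t) q)‖ ^ 2) / (2 * C)) -
      (fun t => ‖x t‖ ^ 2 / (8 * C * n)) : Ω → ℝ) t) ∂μ =
      (∫ t, md 𝕜 (x t) p q ∂μ) - 1 / (2 * C) - n / (8 * C * n) := by
    rw [integral_sub' (i1.sub i2) i3, integral_sub' i1 i2, integral_div, integral_div,
      integral_add (hI p) (hI q), hP, hP, hN, integral_norm_sq hI hP, hfin]
  rw [e]
  have e2 : (n:ℝ) / (8 * C * n) = 1 / (8 * C) := by field_simp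
  rw [e2]
  have h5 : 1 / C ≤ ∫ t, md 𝕜 (x t) p q ∂μ := by
    rw [div_le_iff₀ hC, mul_comm]
    exact hle
  have e3 : 3 / (8 * C) = 1 / C - 1 / (2 * C) - 1 / (8 * C) := by
    field_simp
    norm_num
  rw [e3]
  linarith

/-- The good event. -/
lemma good_event [FiniteDimensional 𝕜 H] {n : ℕ} (hn : 0 < n) (hfin : Module.finrank 𝕜 H = n)
    {x : Ω → H} (hx : ∀ v, Measurable fun t => (inner 𝕜 (x t) v))
    (hI : ∀ v, Integrable (fun t => ‖(inner 𝕜 (x t) v)‖ ^ 2) μ)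
    (hP : ∀ v, ∫ t, ‖(inner 𝕜 (x t) v)‖ ^ 2 ∂μ = ‖v‖ ^ 2) {C : ℝ} (hC : 0 < C)
    (hb : ∀ v w : H, ∃ c : 𝕜, ‖c‖ = 1 ∧
      ‖v - c • w‖ ≤ C * ∫ t, |‖(inner 𝕜 (x t) v)‖ - ‖(inner 𝕜 (x t) w)‖| ∂μ)
    {m : ℕ} (hm : 2 ^ 18 * C ^ 4 * n ≤ m) :
    ∃ B : Set (Fin m → Ω),
      (Measure.pi fun _ : Fin m => μ) B ≤ ENNReal.ofReal (Real.exp (-(m / (8 * C ^ 4)))) ∧
      ∀ t ∉ B, ∀ p q : H, (inner 𝕜 p q) = 0 → ‖p‖ ^ 2 + ‖q‖ ^ 2 = 1 →
        m * (1 / (8 * C)) ≤ ∑ j, min (md 𝕜 (x (t j)) p q) (C / 2) := by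
  have hnR : (0:ℝ) < n := by exact_mod_cast hn
  have hmR : (0:ℝ) < m := lt_of_lt_of_le (by positivity) hm
  have hm0 : 0 < m := by exact_mod_cast hmR
  have : ProperSpace H := FiniteDimensional.proper_rclike 𝕜 H
  set R : ℝ := 2 * C * √n with hRd
  have hR0 : 0 < R := by positivity
  obtain ⟨ε, hε⟩ : ∃ ε, ε = 1 / (64 * C * R) := ⟨_, rfl⟩
  have hε0 : 0 < ε := by rw [hε]; positivity
  have hεR : 4 * (ε * R) = 1 / (16 * C) := by rw [hε]; field_simp; norm_num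
  obtain ⟨T, hTs, hTf, hTc⟩ := (isCompact_closedBall (0:H) 1).finite_cover_balls hε0
  have : Fintype T := hTf.fintype
  have hnet : ∀ p : H, ‖p‖ ≤ 1 → ∃ p' : T, ‖p - p'‖ ≤ ε := by
    intro p hp
    have := hTc (show p ∈ Metric.closedBall (0:H) 1 by simpa using hp)
    simp only [Set.mem_iUnion, Metric.mem_ball, exists_prop] at this
    obtain ⟨y, hy, hd⟩ := this
    exact ⟨⟨y, hy⟩, by rw [← dist_eq_norm]; exact hd.le⟩
  have : Nonempty T := ⟨(hnet 0 (by simp)).choose⟩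
  have hT1 : ∀ y : T, ‖(y : H)‖ ≤ 1 := by
    intro y
    simpa using hTs y.2
  have hst := sample_tail (𝕜 := 𝕜) (μ := μ) hx hR0.le (a := fun τ : T × T => (τ.1 : H))
    (b := fun τ : T × T => (τ.2 : H)) (fun τ => hT1 _) (fun τ => hT1 _)
    (M := C / 2) (by positivity) hm0 (s := 1 / (8 * C)) (by positivity)
  have e1 : 2 * (m:ℝ) * (1 / (8 * C)) ^ 2 / (C / 2) ^ 2 = m / (8 * C ^ 4) := by
    field_simp
    norm_num
  rw [e1] at hst
  refine ⟨_, hst, fun t ht p q hpq hN => ?_⟩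
  have hp1 : ‖p‖ ≤ 1 := by
    by_contra hcon
    push Not at hcon
    nlinarith [sq_nonneg ‖q‖]
  have hq1 : ‖q‖ ≤ 1 := by
    by_contra hcon
    push Not at hcon
    nlinarith [sq_nonneg ‖p‖]
  obtain ⟨p', hp'⟩ := hnet p hp1
  obtain ⟨q', hq'⟩ := hnet q hq1
  have hs : m * (∫ u, min (md 𝕜 (tr R x u) (p' : H) (q' : H)) (C / 2) ∂μ) -
        ∑ j, min (md 𝕜 (tr R x (t j)) (p' : H) (q' : H)) (C / 2) <
        16 * R * √m + m * (1 / (8 * C)) := by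
    by_contra hcon
    push Not at hcon
    exact ht ⟨(p', q'), hcon⟩
  have hlow := mean_lower (μ := μ) hn hfin hx hI hP hC hb hpq hN
  rw [← hRd] at hlow
  have hinteg : ∀ p q : H, Integrable (fun t => min (md 𝕜 (tr R x t) p q) (C / 2)) μ := by
    intro p q
    refine Integrable.of_bound (C := C / 2) ?_ (Filter.Eventually.of_forall fun t => ?_)
    · exact ((((tr_meas hx p).norm.sub (tr_meas hx q).norm).abs).min
        measurable_const).aestronglyMeasurable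
    · rw [Real.norm_eq_abs, abs_of_nonneg (le_min (md_nonneg _ _ _) (by positivity))]
      exact min_le_right _ _
  have hint : ∫ s, min (md 𝕜 (tr R x s) p q) (C / 2) ∂μ ≤
      (∫ s, min (md 𝕜 (tr R x s) (p' : H) (q' : H)) (C / 2) ∂μ) + 2 * (ε * R) := by
    have := integral_mono (hinteg p q) ((hinteg (p' : H) (q' : H)).add
      (integrable_const (2 * (ε * R)))) fun s => min_sub_min (M := C / 2) (by positivity)
        (md_diff (𝕜 := 𝕜) (tr_norm hR0.le x s) hp' hq')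
    refine this.trans (le_of_eq ?_)
    simp only [Pi.add_apply]
    rw [integral_add (hinteg _ _) (integrable_const _), integral_const,
      probReal_univ, one_smul]
  have hsum : ∑ j, min (md 𝕜 (tr R x (t j)) (p' : H) (q' : H)) (C / 2) ≤
      ∑ j, min (md 𝕜 (x (t j)) p q) (C / 2) + m * (2 * (ε * R)) := by
    have h6 : ∀ j, min (md 𝕜 (tr R x (t j)) (p' : H) (q' : H)) (C / 2) ≤
        min (md 𝕜 (x (t j)) p q) (C / 2) + 2 * (ε * R) := by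
      intro j
      refine (min_sub_min (M := C / 2) (by positivity) (md_diff (𝕜 := 𝕜) (tr_norm hR0.le x (t j))
        (p := (p' : H)) (q := (q' : H)) (p' := p) (q' := q) (ε := ε)
        (by rw [norm_sub_rev]; exact hp') (by rw [norm_sub_rev]; exact hq'))).trans ?_
      have := min_le_min_right (C / 2) (md_tr_le (𝕜 := 𝕜) R x (t j) p q)
      linarith
    have := Finset.sum_le_sum fun j (_ : j ∈ (Finset.univ : Finset (Fin m))) => h6 j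
    rw [Finset.sum_add_distrib] at this
    simpa using this
  -- the condition on `m`
  have hcond : 16 * R * √m ≤ m * (1 / (16 * C)) := by
    have e2 : 512 * C ^ 2 * √n ≤ √m := by
      have h7 : 512 * C ^ 2 * √n = √(2 ^ 18 * C ^ 4 * n) := by
        rw [show (2:ℝ) ^ 18 * C ^ 4 * n = (512 * C ^ 2) ^ 2 * n by ring,
          Real.sqrt_mul (by positivity), Real.sqrt_sq (by positivity)]
      rw [h7]
      exact Real.sqrt_le_sqrt hm
    have e3 : (m : ℝ) = √m * √m := (Real.mul_self_sqrt hmR.le).symm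
    have e4 : 16 * R ≤ √m * (1 / (16 * C)) := by
      have e5 : 16 * R = (512 * C ^ 2 * √n) * (1 / (16 * C)) := by
        rw [hRd]; field_simp; norm_num
      rw [e5]
      exact mul_le_mul_of_nonneg_right e2 (by positivity)
    calc 16 * R * √m ≤ √m * (1 / (16 * C)) * √m :=
          mul_le_mul_of_nonneg_right e4 (Real.sqrt_nonneg _)
      _ = √m * √m * (1 / (16 * C)) := by ring
      _ = m * (1 / (16 * C)) := by rw [← e3]
  set I1 := ∫ s, min (md 𝕜 (tr R x s) p q) (C / 2) ∂μ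
  set I2 := ∫ s, min (md 𝕜 (tr R x s) (p' : H) (q' : H)) (C / 2) ∂μ
  obtain ⟨κ, hκ⟩ : ∃ κ, κ = 1 / (16 * C) := ⟨_, rfl⟩
  have f1 : 3 / (8 * C) = 6 * κ := by rw [hκ]; field_simp; norm_num
  have f2 : 1 / (8 * C) = 2 * κ := by rw [hκ]; field_simp; norm_num
  rw [f2] at hs ⊢
  rw [f1] at hlow
  rw [← hκ] at hcond hεR
  have h9 : 6 * κ - 2 * (ε * R) ≤ I2 := by linarith
  have h10 : (m:ℝ) * (6 * κ - 2 * (ε * R)) ≤ m * I2 := mul_le_mul_of_nonneg_left h9 hmR.le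
  have h11 : (m:ℝ) * (4 * (ε * R)) = m * κ := by rw [hεR]
  nlinarith

end Pool.Agent.KS6_58.SP
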