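import Pool.Agent.KS6_58.SP.B

/-!
# Robust stable phase retrieval, the `L_1` norm, and the converse
-/

open MeasureTheory

namespace Pool.Agent.KS6_58.SP

open Pool.H164.Spr

variable {𝕜 : Type*} [RCLike 𝕜] {H : Type*} [NormedAddCommGroup H] [InnerProductSpace 𝕜 H]

variable {Ω : Type*} [MeasurableSpace Ω] {μ : Measure Ω} [IsProbabilityMeasure μ]

omit [MeasurableSpace Ω] in
/-- From the inequality on normalised orthogonal pairs to all pairs, for every large set of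
indices. -/
lemma robust {C : ℝ} (hC : 0 < C) {m : ℕ} (hm : 0 < m) {x : Ω → H} {t : Fin m → Ω}
    (ht : ∀ p q : H, (inner 𝕜 p q) = 0 → ‖p‖ ^ 2 + ‖q‖ ^ 2 = 1 →
        m * (1 / (8 * C)) ≤ ∑ j, min (md 𝕜 (x (t j)) p q) (C / 2))
    {J : Finset (Fin m)} (hJ : (1 - 1 / (8 * C ^ 2)) * m ≤ J.card) (v w : H) :
    ∃ c : 𝕜, ‖c‖ = 1 ∧
      ‖v - c • w‖ ≤ 16 * C * ((1 / m) * ∑ j ∈ J, md 𝕜 (x (t j)) v w) ∧
      ‖v - c • w‖ ≤ (16 * C) *
      √(∑ j ∈ J, (‖(inner 𝕜 ((((√m)⁻¹ : ℝ) : 𝕜) • x (t j)) v)‖ -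
        ‖(inner 𝕜 ((((√m)⁻¹ : ℝ) : 𝕜) • x (t j)) w)‖) ^ 2) := by
  obtain ⟨c, hc, p, q, hpq, hn, hpt⟩ := reduce (𝕜 := 𝕜) v w
  have hmR : (0:ℝ) < m := by exact_mod_cast hm
  have hsm : 0 < √(m:ℝ) := Real.sqrt_pos.2 hmR
  -- normalised pairs
  have hJ1 : ∀ p q : H, (inner 𝕜 p q) = 0 → ‖p‖ ^ 2 + ‖q‖ ^ 2 = 1 →
      m * (1 / (16 * C)) ≤ ∑ j ∈ J, md 𝕜 (x (t j)) p q := by
    intro p q h1 h2
    have h3 := ht p q h1 h2
    rw [← Finset.sum_add_sum_compl J] at h3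
    have h4 : ∑ j ∈ J, min (md 𝕜 (x (t j)) p q) (C / 2) ≤ ∑ j ∈ J, md 𝕜 (x (t j)) p q :=
      Finset.sum_le_sum fun j _ => min_le_left _ _
    have h5 : ∑ j ∈ Jᶜ, min (md 𝕜 (x (t j)) p q) (C / 2) ≤ ∑ _j ∈ Jᶜ, C / 2 :=
      Finset.sum_le_sum fun j _ => min_le_right _ _
    rw [Finset.sum_const, nsmul_eq_mul] at h5
    have h6 : ((Jᶜ).card : ℝ) = m - J.card := by
      have := Finset.card_compl_add_card J
      rw [Fintype.card_fin] at this
      have h7 : ((Jᶜ).card : ℝ) + J.card = m := by exact_mod_cast this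
      linarith
    rw [h6] at h5
    have h8 : (m:ℝ) - J.card ≤ m * (1 / (8 * C ^ 2)) := by linarith
    have h9 : ((m:ℝ) - J.card) * (C / 2) ≤ m * (1 / (8 * C ^ 2)) * (C / 2) :=
      mul_le_mul_of_nonneg_right h8 (by positivity)
    have e1 : (m:ℝ) * (1 / (8 * C ^ 2)) * (C / 2) = m * (1 / (16 * C)) := by field_simp; norm_num
    have e2 : (m:ℝ) * (1 / (8 * C)) = m * (1 / (16 * C)) + m * (1 / (16 * C)) := by
      field_simp; norm_num
    rw [e1] at h9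
    rw [e2] at h3
    linarith
  have key : m * (1 / (16 * C)) * ‖v - c • w‖ ≤ ∑ j ∈ J, md 𝕜 (x (t j)) v w := by
    rcases (norm_nonneg (v - c • w)).eq_or_lt with h0 | h0
    · rw [← h0, mul_zero]
      exact Finset.sum_nonneg fun j _ => md_nonneg _ _ _
    · set N := ‖v - c • w‖ with hN
      have hinv : ‖((N⁻¹ : ℝ) : 𝕜)‖ = N⁻¹ := by
        rw [RCLike.norm_ofReal, abs_of_pos (by positivity)]
      have h2 := hJ1 (((N⁻¹ : ℝ) : 𝕜) • p) (((N⁻¹ : ℝ) : 𝕜) • q)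
        (by rw [inner_smul_left, inner_smul_right, hpq]; simp)
        (by
          rw [norm_smul, norm_smul, hinv, mul_pow, mul_pow, ← mul_add, hn, ← mul_pow,
            inv_mul_cancel₀ h0.ne', one_pow])
      have h3 : ∑ j ∈ J, md 𝕜 (x (t j)) (((N⁻¹ : ℝ) : 𝕜) • p) (((N⁻¹ : ℝ) : 𝕜) • q) =
          N⁻¹ * ∑ j ∈ J, md 𝕜 (x (t j)) p q := by
        rw [Finset.mul_sum]
        refine Finset.sum_congr rfl fun j _ => ?_
        rw [md, md, inner_smul_right, inner_smul_right, norm_mul, norm_mul, hinv, ← mul_sub,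
          abs_mul, abs_of_pos (inv_pos.2 h0)]
      rw [h3] at h2
      have h4 : ∑ j ∈ J, md 𝕜 (x (t j)) p q ≤ ∑ j ∈ J, md 𝕜 (x (t j)) v w :=
        Finset.sum_le_sum fun j _ => hpt _
      have h5 : m * (1 / (16 * C)) * N ≤ ∑ j ∈ J, md 𝕜 (x (t j)) p q := by
        have := mul_le_mul_of_nonneg_right h2 h0.le
        rw [mul_comm N⁻¹, mul_assoc _ N⁻¹, inv_mul_cancel₀ h0.ne', mul_one] at this
        exact this
      exact h5.trans h4
  refine ⟨c, hc, ?_, ?_⟩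
  · have e : 16 * C * ((1 / (m:ℝ)) * ∑ j ∈ J, md 𝕜 (x (t j)) v w) =
        (∑ j ∈ J, md 𝕜 (x (t j)) v w) * (16 * C / m) := by ring
    rw [e, ← div_le_iff₀ (by positivity)]
    refine le_trans (le_of_eq ?_) key
    field_simp
  set N := ‖v - c • w‖ with hN
  set S := ∑ j ∈ J, |‖(inner 𝕜 (x (t j)) v)‖ - ‖(inner 𝕜 (x (t j)) w)‖| ^ 2 with hS
  have hS0 : 0 ≤ S := Finset.sum_nonneg fun j _ => by positivity
  have hcs : (∑ j ∈ J, md 𝕜 (x (t j)) v w) ^ 2 ≤ m * S := by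
    have h1 := sq_sum_le_card_mul_sum_sq (s := J)
      (f := fun j => |‖(inner 𝕜 (x (t j)) v)‖ - ‖(inner 𝕜 (x (t j)) w)‖|)
    have h2 : (J.card : ℝ) ≤ m := by
      have := Finset.card_le_univ J
      rw [Fintype.card_fin] at this
      exact_mod_cast this
    exact h1.trans (mul_le_mul_of_nonneg_right h2 hS0)
  have e : ∑ j ∈ J, (‖(inner 𝕜 ((((√m)⁻¹ : ℝ) : 𝕜) • x (t j)) v)‖ -
        ‖(inner 𝕜 ((((√m)⁻¹ : ℝ) : 𝕜) • x (t j)) w)‖) ^ 2 = S / m := by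
    rw [hS, Finset.sum_div]
    refine Finset.sum_congr rfl fun j _ => ?_
    rw [inner_smul_left, inner_smul_left, norm_mul, norm_mul, RCLike.conj_ofReal,
      RCLike.norm_ofReal, abs_of_pos (inv_pos.2 hsm), ← mul_sub, mul_pow, inv_pow,
      Real.sq_sqrt hmR.le, sq_abs]
    rw [div_eq_inv_mul]
  rw [e]
  have hN0 : 0 ≤ N := norm_nonneg _
  have h6 : (m * (1 / (16 * C)) * N) ^ 2 ≤ m * S :=
    (pow_le_pow_left₀ (by positivity) key 2).trans hcs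
  have h7 : ((1 / (16 * C)) * N) ^ 2 ≤ S / m := by
    rw [le_div_iff₀ hmR]
    have h8 : (m:ℝ) * (((1 / (16 * C)) * N) ^ 2 * m) ≤ m * S := by
      calc (m:ℝ) * (((1 / (16 * C)) * N) ^ 2 * m) = (m * (1 / (16 * C)) * N) ^ 2 := by ring
        _ ≤ m * S := h6
    exact le_of_mul_le_mul_left h8 hmR
  have h8 : (1 / (16 * C)) * N ≤ √(S / m) := Real.le_sqrt_of_sq_le h7
  have h9 : N = (16 * C) * ((1 / (16 * C)) * N) := by field_simp
  rw [h9]
  exact mul_le_mul_of_nonneg_left h8 (by positivity)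

/-- The best unimodular factor. -/
lemma best (v w : H) : ∃ c₀ : 𝕜, ‖c₀‖ = 1 ∧ ∀ c : 𝕜, ‖c‖ = 1 → ‖v - c₀ • w‖ ≤ ‖v - c • w‖ := by
  obtain ⟨c₀, hc₀, hv⟩ := RCLike.exists_norm_eq_mul_self (inner 𝕜 v w)
  refine ⟨c₀, hc₀, fun c hc => ?_⟩
  refine abs_le_of_sq_le_sq' ?_ (norm_nonneg _) |>.2
  rw [@norm_sub_sq 𝕜, @norm_sub_sq 𝕜, norm_smul, norm_smul, hc, hc₀, inner_smul_right,
    inner_smul_right, ← hv, RCLike.ofReal_re]
  have h1 : RCLike.re (c * inner 𝕜 v w) ≤ ‖inner 𝕜 v w‖ := by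
    refine (RCLike.re_le_norm _).trans ?_
    rw [norm_mul, hc, one_mul]
  linarith

/-- The converse: if random sampling gives stable phase retrieval with exponentially small
failure probability, then the norm is controlled by the mean of the moduli. -/
lemma converse {x : Ω → H} (hx : ∀ v, Measurable fun t => (inner 𝕜 (x t) v))
    (hI : ∀ v, Integrable (fun t => ‖(inner 𝕜 (x t) v)‖ ^ 2) μ) {κ c : ℝ} (hκ : 0 < κ) (hc : 0 < c)
    {m : ℕ} (hm : 0 < m)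
    (h : (Measure.pi fun _ : Fin m => μ) {t | ¬ ∀ v w : H, ∃ c : 𝕜, ‖c‖ = 1 ∧ ‖v - c • w‖ ≤ κ *
      √(∑ j, (‖(inner 𝕜 ((((√m)⁻¹ : ℝ) : 𝕜) • x (t j)) v)‖ -
        ‖(inner 𝕜 ((((√m)⁻¹ : ℝ) : 𝕜) • x (t j)) w)‖) ^ 2)} ≤
        ENNReal.ofReal (Real.exp (-(c * m)))) (v w : H) :
    ∃ c₀ : 𝕜, ‖c₀‖ = 1 ∧ ‖v - c₀ • w‖ ≤ (κ / (1 - Real.exp (-c))) *
      ∫ t, |‖(inner 𝕜 (x t) v)‖ - ‖(inner 𝕜 (x t) w)‖| ∂μ := by
  have hmR : (0:ℝ) < m := by exact_mod_cast hm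
  have hsm : 0 < √(m:ℝ) := Real.sqrt_pos.2 hmR
  have hρ : 0 < 1 - Real.exp (-c) := by
    have : Real.exp (-c) < 1 := by
      rw [← Real.exp_zero]
      exact Real.exp_lt_exp.2 (by linarith)
    linarith
  obtain ⟨c₀, hc₀, hbest⟩ := best (𝕜 := 𝕜) v w
  refine ⟨c₀, hc₀, ?_⟩
  set N := ‖v - c₀ • w‖ with hN
  have hI0 : 0 ≤ ∫ t, |‖(inner 𝕜 (x t) v)‖ - ‖(inner 𝕜 (x t) w)‖| ∂μ :=
    integral_nonneg fun t => abs_nonneg _
  rcases (show (0:ℝ) ≤ N from norm_nonneg _).eq_or_lt with h0 | hN0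
  · rw [← h0]
    positivity
  set S : Set Ω := {u | |‖(inner 𝕜 (x u) v)‖ - ‖(inner 𝕜 (x u) w)‖| < N / κ} with hS
  have hSm : MeasurableSet S :=
    measurableSet_lt (((hx v).norm.sub (hx w).norm).abs) measurable_const
  have hsub : Set.pi Set.univ (fun _ : Fin m => S) ⊆
      {t | ¬ ∀ v w : H, ∃ c : 𝕜, ‖c‖ = 1 ∧ ‖v - c • w‖ ≤ κ *
      √(∑ j, (‖(inner 𝕜 ((((√m)⁻¹ : ℝ) : 𝕜) • x (t j)) v)‖ -
        ‖(inner 𝕜 ((((√m)⁻¹ : ℝ) : 𝕜) • x (t j)) w)‖) ^ 2)} := by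
    intro t ht hcon
    obtain ⟨c', hc', hle⟩ := hcon v w
    have hNe : N / κ ≤ √(∑ j, (‖(inner 𝕜 ((((√m)⁻¹ : ℝ) : 𝕜) • x (t j)) v)‖ -
        ‖(inner 𝕜 ((((√m)⁻¹ : ℝ) : 𝕜) • x (t j)) w)‖) ^ 2) := by
      rw [div_le_iff₀ hκ, mul_comm]
      exact (hbest c' hc').trans hle
    have e : ∑ j, (‖(inner 𝕜 ((((√m)⁻¹ : ℝ) : 𝕜) • x (t j)) v)‖ -
        ‖(inner 𝕜 ((((√m)⁻¹ : ℝ) : 𝕜) • x (t j)) w)‖) ^ 2 =
        (∑ j, |‖(inner 𝕜 (x (t j)) v)‖ - ‖(inner 𝕜 (x (t j)) w)‖| ^ 2) / m := by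
      rw [Finset.sum_div]
      refine Finset.sum_congr rfl fun j _ => ?_
      rw [inner_smul_left, inner_smul_left, norm_mul, norm_mul, RCLike.conj_ofReal,
        RCLike.norm_ofReal, abs_of_pos (inv_pos.2 hsm), ← mul_sub, mul_pow, inv_pow,
        Real.sq_sqrt hmR.le, sq_abs]
      rw [div_eq_inv_mul]
    rw [e] at hNe
    have hlt : (∑ j, |‖(inner 𝕜 (x (t j)) v)‖ - ‖(inner 𝕜 (x (t j)) w)‖| ^ 2) / m <
        (N / κ) ^ 2 := by
      rw [div_lt_iff₀ hmR]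
      have h1 : ∑ j, |‖(inner 𝕜 (x (t j)) v)‖ - ‖(inner 𝕜 (x (t j)) w)‖| ^ 2 <
          ∑ _j : Fin m, (N / κ) ^ 2 := by
        refine Finset.sum_lt_sum_of_nonempty ⟨⟨0, hm⟩, Finset.mem_univ _⟩ fun j _ => ?_
        have h2 : |‖(inner 𝕜 (x (t j)) v)‖ - ‖(inner 𝕜 (x (t j)) w)‖| < N / κ :=
          ht j (Set.mem_univ j)
        exact pow_lt_pow_left₀ h2 (abs_nonneg _) two_ne_zero
      rw [Finset.sum_const, Finset.card_univ, Fintype.card_fin, nsmul_eq_mul] at h1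
      linarith
    have h3 := Real.sqrt_lt_sqrt (by positivity) hlt
    rw [Real.sqrt_sq (by positivity)] at h3
    linarith
  have h1 := (measure_mono hsub).trans h
  rw [Measure.pi_pi, Finset.prod_const, Finset.card_univ, Fintype.card_fin] at h1
  have h2 : μ.real S ^ m ≤ Real.exp (-c) ^ m := by
    have e1 : Real.exp (-c) ^ m = Real.exp (-(c * m)) := by
      rw [← Real.exp_nat_mul]; congr 1; ring
    rw [e1]
    have := ENNReal.toReal_mono ENNReal.ofReal_ne_top h1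
    rw [ENNReal.toReal_pow, ENNReal.toReal_ofReal (Real.exp_pos _).le] at this
    exact this
  have h3 : μ.real S ≤ Real.exp (-c) :=
    le_of_pow_le_pow_left₀ hm.ne' (Real.exp_pos _).le h2
  have h4 : μ.real Sᶜ = 1 - μ.real S := probReal_compl_eq_one_sub hSm
  have h5 : Sᶜ = {u | N / κ ≤ |‖(inner 𝕜 (x u) v)‖ - ‖(inner 𝕜 (x u) w)‖|} := by
    ext u
    simp [hS]
  have h6 := mul_meas_ge_le_integral_of_nonneg (μ := μ)
    (f := fun u => |‖(inner 𝕜 (x u) v)‖ - ‖(inner 𝕜 (x u) w)‖|)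
    (Filter.Eventually.of_forall fun u => abs_nonneg _) (int_abs hx hI v w) (N / κ)
  rw [← h5, h4] at h6
  have h7 : N / κ * (1 - Real.exp (-c)) ≤ N / κ * (1 - μ.real S) :=
    mul_le_mul_of_nonneg_left (by linarith) (by positivity)
  have h8 := h7.trans h6
  rw [div_mul_eq_mul_div, le_div_iff₀ hρ]
  rw [div_mul_eq_mul_div, div_le_iff₀ hκ] at h8
  linarith

/-- The `L_1` norm controls the norm, under a bound for the tails of `‖x_t‖²`. -/
lemma l1_lower_tail [FiniteDimensional 𝕜 H] {n : ℕ} (hn : 1 ≤ n)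
    (hfin : Module.finrank 𝕜 H = n)
    {x : Ω → H} (hx : ∀ v, Measurable fun t => (inner 𝕜 (x t) v)) {β : ℝ} (hβ : 0 < β)
    (hI : ∀ v, Integrable (fun t => ‖(inner 𝕜 (x t) v)‖ ^ 2) μ)
    (hP : ∀ v, ∫ t, ‖(inner 𝕜 (x t) v)‖ ^ 2 ∂μ = ‖v‖ ^ 2) {C : ℝ} (hC : 0 < C)
    (hT : ∫ t in {t | β * √n < ‖x t‖}, ‖x t‖ ^ 2 ∂μ ≤ n / (4 * C ^ 2))
    (h2 : ∀ v w : H, ∃ c : 𝕜, ‖c‖ = 1 ∧
      ‖v - c • w‖ ^ 2 ≤ C ^ 2 * ∫ t, (‖(inner 𝕜 (x t) v)‖ - ‖(inner 𝕜 (x t) w)‖) ^ 2 ∂μ)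
    (e : H) (he : ‖e‖ = 1) :
    1 / (2 * C ^ 2 * (1 + 2 * β ^ 2)) ≤ ∫ t, ‖(inner 𝕜 (x t) e)‖ ∂μ := by
  have hxn := meas_norm (𝕜 := 𝕜) hx
  set G : Set Ω := {t | β * √n < ‖x t‖} with hG
  have hGm : MeasurableSet G := measurableSet_lt measurable_const hxn
  rw [← integral_indicator hGm] at hT
  have hgi : Integrable (G.indicator fun t => ‖x t‖ ^ 2) μ :=
    (int_norm_sq (𝕜 := 𝕜) hI).indicator hGm
  have hg0 : ∀ t, 0 ≤ G.indicator (fun t => ‖x t‖ ^ 2) t := fun t =>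
    Set.indicator_nonneg (fun _ _ => by positivity) t
  have hF0 : 0 ≤ ∫ t, ‖(inner 𝕜 (x t) e)‖ ∂μ := integral_nonneg fun t => norm_nonneg _
  rcases hn.eq_or_lt with hn1 | hn2
  · -- `n = 1`
    have hC1 : 1 ≤ C ^ 2 := by
      obtain ⟨c, -, hle⟩ := h2 e 0
      simp only [smul_zero, sub_zero, inner_zero_right, norm_zero, hP, he] at hle
      linarith
    have hpt : ∀ t, ‖(inner 𝕜 (x t) e)‖ ^ 2 ≤
        β * ‖(inner 𝕜 (x t) e)‖ + G.indicator (fun t => ‖x t‖ ^ 2) t := by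
      intro t
      have h0 := norm_nonneg (inner 𝕜 (x t) e)
      have hle : ‖(inner 𝕜 (x t) e)‖ ≤ ‖x t‖ := by
        have := norm_inner_le_norm (𝕜 := 𝕜) (x t) e
        rwa [he, mul_one] at this
      by_cases ht : t ∈ G
      · rw [Set.indicator_of_mem ht]
        have h1 := pow_le_pow_left₀ h0 hle 2
        have h3 : 0 ≤ β * ‖(inner 𝕜 (x t) e)‖ := by positivity
        linarith
      · rw [Set.indicator_of_notMem ht, add_zero]
        have h1 : ‖x t‖ ≤ β := by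
          have : ¬ (β * √n < ‖x t‖) := ht
          rw [← hn1] at this
          simpa using not_lt.1 this
        rw [sq]
        exact mul_le_mul_of_nonneg_right (hle.trans h1) h0
    have hint := integral_mono (hI e) (((int_norm hx hI e).const_mul β).add hgi) hpt
    simp only [Pi.add_apply] at hint
    rw [integral_add ((int_norm hx hI e).const_mul β) hgi, integral_const_mul, hP, he,
      one_pow] at hint
    rw [← hn1, Nat.cast_one] at hT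
    have h4 : 1 / (4 * C ^ 2) ≤ 1 / 4 := by
      rw [div_le_div_iff₀ (by positivity) (by norm_num)]
      linarith
    have h5 : 3 / 4 ≤ β * ∫ t, ‖(inner 𝕜 (x t) e)‖ ∂μ := by linarith
    rw [div_le_iff₀ (by positivity)]
    have h6 : 1 ≤ (∫ t, ‖(inner 𝕜 (x t) e)‖ ∂μ) * (2 * (1 + 2 * β ^ 2)) := by
      have h7 : 3 * β ≤ 2 * (1 + 2 * β ^ 2) := by nlinarith [sq_nonneg (β - 3 / 8)]
      have h8 := mul_le_mul_of_nonneg_left h7 hF0
      linarith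
    have h9 : 2 * (1 + 2 * β ^ 2) ≤ 2 * C ^ 2 * (1 + 2 * β ^ 2) := by
      have : 0 < 1 + 2 * β ^ 2 := by positivity
      nlinarith
    exact h6.trans (mul_le_mul_of_nonneg_left h9 hF0)
  · obtain ⟨k, rfl⟩ : ∃ k, n = k + 2 := ⟨n - 2, by omega⟩
    obtain ⟨b, hb⟩ := Orthonormal.exists_orthonormalBasis_extension_of_card_eq (𝕜 := 𝕜)
      (ι := Fin (k + 2)) (by rw [hfin, Fintype.card_fin]) (v := fun _ => e) (s := {0}) (by
        rw [orthonormal_iff_ite]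
        intro i j
        have : i = j := Subsingleton.elim _ _
        subst this
        simp [Set.domRestrict, inner_self_eq_norm_sq_to_K, he])
    have hb0 : b 0 = e := hb 0 rfl
    set f : Ω → ℝ := fun t => ‖(inner 𝕜 (x t) e)‖ with hf
    set ps : Fin (k + 1) → Ω → ℝ := fun i t =>
      (‖(inner 𝕜 (x t) (e + b i.succ))‖ - ‖(inner 𝕜 (x t) (e - b i.succ))‖) ^ 2 with hps
    have hpsi : ∀ i, Integrable (ps i) μ := fun i => int_sq hx hI _ _
    have hlow : ∀ i, 4 ≤ C ^ 2 * ∫ t, ps i t ∂μ := by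
      intro i
      obtain ⟨c, hc, hle⟩ := h2 (e + b i.succ) (e - b i.succ)
      refine le_trans ?_ hle
      have horth : (inner 𝕜 e (b i.succ)) = 0 := by
        rw [← hb0]
        exact b.orthonormal.2 (Fin.succ_ne_zero i).symm
      have horth' : (inner 𝕜 (b i.succ) e) = 0 := by rw [← inner_conj_symm, horth, map_zero]
      have hbi : ‖b i.succ‖ = 1 := b.orthonormal.1 _
      have n1 : ‖e + b i.succ‖ ^ 2 = 2 := by
        rw [@norm_add_sq 𝕜, horth, he, hbi]; simp; norm_num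
      have n2 : ‖e - b i.succ‖ ^ 2 = 2 := by
        rw [@norm_sub_sq 𝕜, horth, he, hbi]; simp; norm_num
      have n3 : (inner 𝕜 (e + b i.succ) (c • (e - b i.succ))) = 0 := by
        rw [inner_smul_right, inner_add_left, inner_sub_right, inner_sub_right, horth, horth',
          inner_self_eq_norm_sq_to_K, inner_self_eq_norm_sq_to_K, he, hbi]
        simp
      rw [@norm_sub_sq 𝕜, n3, norm_smul, hc, one_mul, n1, n2]
      simp
      norm_num
    have hpt : ∀ t, ∑ i, ps i t ≤ 4 * ((k + 1) + β ^ 2 * (k + 2)) * f t +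
        4 * G.indicator (fun t => ‖x t‖ ^ 2) t := by
      intro t
      have hft : 0 ≤ f t := norm_nonneg _
      have a1 : ∀ i, ps i t ≤ 4 * f t ^ 2 := by
        intro i
        simp only [hps, hf, inner_add_right, inner_sub_right]
        have h5 : |‖(inner 𝕜 (x t) e) + (inner 𝕜 (x t) (b i.succ))‖ - ‖(inner 𝕜 (x t) e) - (inner 𝕜 (x t) (b i.succ))‖| ≤
            2 * ‖(inner 𝕜 (x t) e)‖ := by
          rw [norm_sub_rev (inner 𝕜 (x t) e) (inner 𝕜 (x t) (b i.succ))]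
          refine (abs_norm_sub_norm_le _ _).trans ?_
          rw [show (inner 𝕜 (x t) e) + (inner 𝕜 (x t) (b i.succ)) - ((inner 𝕜 (x t) (b i.succ)) - (inner 𝕜 (x t) e)) = 2 * (inner 𝕜 (x t) e) by ring,
            norm_mul, RCLike.norm_ofNat]
        have h6 := abs_nonneg (‖(inner 𝕜 (x t) e) + (inner 𝕜 (x t) (b i.succ))‖ - ‖(inner 𝕜 (x t) e) - (inner 𝕜 (x t) (b i.succ))‖)
        rw [← sq_abs]
        nlinarith
      have a2 : ∀ i, ps i t ≤ 4 * ‖(inner 𝕜 (x t) (b i.succ))‖ ^ 2 := by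
        intro i
        simp only [hps, inner_add_right, inner_sub_right]
        have h5 : |‖(inner 𝕜 (x t) e) + (inner 𝕜 (x t) (b i.succ))‖ - ‖(inner 𝕜 (x t) e) - (inner 𝕜 (x t) (b i.succ))‖| ≤
            2 * ‖(inner 𝕜 (x t) (b i.succ))‖ := by
          refine (abs_norm_sub_norm_le _ _).trans ?_
          rw [show (inner 𝕜 (x t) e) + (inner 𝕜 (x t) (b i.succ)) - ((inner 𝕜 (x t) e) - (inner 𝕜 (x t) (b i.succ))) =
            2 * (inner 𝕜 (x t) (b i.succ)) by ring, norm_mul, RCLike.norm_ofNat]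
        have h6 := abs_nonneg (‖(inner 𝕜 (x t) e) + (inner 𝕜 (x t) (b i.succ))‖ - ‖(inner 𝕜 (x t) e) - (inner 𝕜 (x t) (b i.succ))‖)
        rw [← sq_abs]
        nlinarith
      have hbes0 : ∑ i : Fin (k + 1), ‖(inner 𝕜 (x t) (b i.succ))‖ ^ 2 ≤ ‖x t‖ ^ 2 := by
        have h7 := b.sum_sq_norm_inner_left (x t)
        rw [Fin.sum_univ_succ] at h7
        have h9 : 0 ≤ ‖(inner 𝕜 (x t) (b 0))‖ ^ 2 := by positivity
        linarith
      have hps2 : ∑ i, ps i t ≤ 4 * ‖x t‖ ^ 2 := by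
        calc ∑ i, ps i t ≤ ∑ i : Fin (k + 1), 4 * ‖(inner 𝕜 (x t) (b i.succ))‖ ^ 2 :=
              Finset.sum_le_sum fun i _ => a2 i
          _ = 4 * ∑ i : Fin (k + 1), ‖(inner 𝕜 (x t) (b i.succ))‖ ^ 2 := by rw [Finset.mul_sum]
          _ ≤ 4 * ‖x t‖ ^ 2 := by linarith
      have hc0 : 0 ≤ 4 * ((k + 1) + β ^ 2 * (k + 2)) * f t := by positivity
      by_cases htG : t ∈ G
      · rw [Set.indicator_of_mem htG]
        linarith
      rw [Set.indicator_of_notMem htG, mul_zero, add_zero]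
      have hRt : ‖x t‖ ≤ β * √((k + 2 : ℕ) : ℝ) := not_lt.1 htG
      rcases le_total (f t) 1 with hle | hge
      · calc ∑ i, ps i t ≤ ∑ _i : Fin (k + 1), 4 * f t := by
              refine Finset.sum_le_sum fun i _ => (a1 i).trans ?_
              nlinarith
          _ = 4 * ((k + 1)) * f t := by
              simp only [Finset.sum_const, Finset.card_univ, Fintype.card_fin, nsmul_eq_mul]
              push_cast
              ring
          _ ≤ _ := by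
              have : 0 ≤ β ^ 2 * ((k:ℝ) + 2) * f t := by positivity
              nlinarith
      · have h8 : ‖x t‖ ^ 2 ≤ (β * √((k + 2 : ℕ) : ℝ)) ^ 2 :=
          pow_le_pow_left₀ (norm_nonneg _) hRt 2
        rw [mul_pow, Real.sq_sqrt (by positivity)] at h8
        push_cast at h8
        calc ∑ i, ps i t ≤ 4 * (β ^ 2 * (k + 2)) := by linarith
          _ ≤ 4 * (β ^ 2 * (k + 2)) * f t := by
              have : 0 ≤ 4 * (β ^ 2 * ((k:ℝ) + 2)) := by positivity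
              nlinarith
          _ ≤ _ := by
              have : 0 ≤ ((k:ℝ) + 1) * f t := by positivity
              nlinarith
    have hint : ∫ t, ∑ i, ps i t ∂μ ≤ ∫ t, (4 * ((k + 1) + β ^ 2 * (k + 2)) * f t +
        4 * G.indicator (fun t => ‖x t‖ ^ 2) t) ∂μ :=
      integral_mono (integrable_finsetSum _ fun i _ => hpsi i)
        (((int_norm hx hI e).const_mul _).add (hgi.const_mul 4)) hpt
    rw [integral_finsetSum _ (fun i _ => hpsi i), integral_add ((int_norm hx hI e).const_mul _)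
      (hgi.const_mul 4), integral_const_mul, integral_const_mul] at hint
    have hsum : ∑ _i : Fin (k + 1), (4:ℝ) ≤ ∑ i, C ^ 2 * ∫ t, ps i t ∂μ :=
      Finset.sum_le_sum fun i _ => hlow i
    rw [← Finset.mul_sum] at hsum
    simp only [Finset.sum_const, Finset.card_univ, Fintype.card_fin, nsmul_eq_mul] at hsum
    push_cast at hsum hT
    have hC2 : 0 < C ^ 2 := by positivity
    have h10 : ((k:ℝ) + 1) * 4 ≤
        C ^ 2 * (4 * ((k + 1) + β ^ 2 * (k + 2)) * (∫ t, f t ∂μ) +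
          4 * ∫ t, G.indicator (fun t => ‖x t‖ ^ 2) t ∂μ) :=
      hsum.trans (mul_le_mul_of_nonneg_left hint hC2.le)
    have hTC : C ^ 2 * (4 * ∫ t, G.indicator (fun t => ‖x t‖ ^ 2) t ∂μ) ≤ (k:ℝ) + 2 := by
      have h11 : C ^ 2 * (4 * ∫ t, G.indicator (fun t => ‖x t‖ ^ 2) t ∂μ) ≤
          C ^ 2 * (4 * (((k:ℝ) + 2) / (4 * C ^ 2))) := by gcongr
      refine h11.trans (le_of_eq ?_)
      field_simp
    set F := ∫ t, f t ∂μ with hFd
    have h12 : (k + 1) + β ^ 2 * (k + 2) ≤ ((k:ℝ) + 1) * (1 + 2 * β ^ 2) := by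
      have : 0 ≤ β ^ 2 * (k:ℝ) := by positivity
      nlinarith
    have h13 : C ^ 2 * (4 * ((k + 1) + β ^ 2 * (k + 2)) * F) ≤
        C ^ 2 * (4 * (((k:ℝ) + 1) * (1 + 2 * β ^ 2)) * F) := by gcongr
    have h14 : ((k:ℝ) + 1) * 2 ≤ ((k:ℝ) + 1) * 2 * (F * (2 * C ^ 2 * (1 + 2 * β ^ 2))) := by
      have h15 : ((k:ℝ) + 1) * 2 ≤ C ^ 2 * (4 * (((k:ℝ) + 1) * (1 + 2 * β ^ 2)) * F) := by
        rw [mul_add] at h10
        have : (0:ℝ) ≤ k := Nat.cast_nonneg k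
        linarith
      refine h15.trans (le_of_eq ?_)
      ring
    rw [div_le_iff₀ (by positivity)]
    have h15 : (0:ℝ) < ((k:ℝ) + 1) * 2 := by positivity
    by_contra hcon
    push Not at hcon
    nlinarith

end Pool.Agent.KS6_58.SP
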